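import Pool.Agent.H948.SF.Stm
import Pool.Agent.H948.SF.Base

/-!
# Chaining of hitting probabilities along a line of descent (for helper948)
-/

set_option autoImplicit false

namespace Pool.Agent.H282.SF

open MeasureTheory ProbabilityTheory Set Filter Pool.Agent.H948.SF
open scoped ENNReal NNReal Nat Topology

/-- events of disjoint sets of coordinates are independent -/
theorem indep_two (h2 : S_BLOCK) (J : Type) (r : J → ℝ) (A B : Set (J → Cell)) (I I' : Set J)
    (hA : MeasurableSet A) (hB : MeasurableSet B)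
    (hAI : ∀ ω ω' : J → Cell, (∀ j ∈ I, ω j = ω' j) → (ω ∈ A ↔ ω' ∈ A))
    (hBI : ∀ ω ω' : J → Cell, (∀ j ∈ I', ω j = ω' j) → (ω ∈ B ↔ ω' ∈ B))
    (hd : Disjoint I I') :
    (Measure.infinitePi fun j => cellLaw (r j)) (A ∩ B) =
      (Measure.infinitePi fun j => cellLaw (r j)) A *
        (Measure.infinitePi fun j => cellLaw (r j)) B := by
  have h := h2 J r Bool (fun _ => Prop) (fun k ω => if k then ω ∈ A else ω ∈ B)
    (fun k => if k then I else I') ?_ ?_ ?_
  · have h3 := h.indepFun (i := true) (j := false) (by decide)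
    have h4 := h3.measure_inter_preimage_eq_mul {True} {True} (measurableSet_singleton _)
      (measurableSet_singleton _)
    have e1 : (fun ω : J → Cell => if true then ω ∈ A else ω ∈ B) ⁻¹' {True} = A := by
      ext ω
      simp
    have e2 : (fun ω : J → Cell => if false then ω ∈ A else ω ∈ B) ⁻¹' {True} = B := by
      ext ω
      simp
    rw [e1, e2] at h4
    exact h4
  · intro k
    cases k
    · show Measurable fun ω : J → Cell => if false = true then ω ∈ A else ω ∈ B
      simp only [Bool.false_eq_true, ite_false]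
      exact (measurableSet_setOfPred (p := fun ω => ω ∈ B)).1 hB
    · show Measurable fun ω : J → Cell => if true = true then ω ∈ A else ω ∈ B
      simp only [ite_true]
      exact (measurableSet_setOfPred (p := fun ω => ω ∈ A)).1 hA
  · intro k ω ω' hk
    cases k
    · simp only [Bool.false_eq_true, ite_false] at hk ⊢
      exact propext (hBI ω ω' hk)
    · simp only [ite_true] at hk ⊢
      exact propext (hAI ω ω' hk)
  · intro k k' hkk
    cases k <;> cases k'
    · exact absurd rfl hkk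
    · simpa using hd.symm
    · simpa using hd
    · exact absurd rfl hkk

/-- **chaining of hitting probabilities** -/
theorem s_chain (h1 : S_RIX) (h2 : S_BLOCK) (h3 : S_MEAS) : S_CHAIN := by
  intro e lam m n0 β hlam hβ j
  induction j with
  | zero =>
    intro w hw
    have hw0 : w = [] := by
      apply List.eq_nil_of_length_eq_zero
      rw [hw, zero_mul]
    subst hw0
    have hu : {ω : Env (Lab (W e)) | ∃ n : ℕ, n ≤ 0 * n0 ∧ Con (TW e) ω [] (-(n : ℤ)) [] 0} = univ := by
      rw [eq_univ_iff_forall]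
      intro ω
      refine ⟨0, Nat.zero_le _, ?_⟩
      have : (-((0 : ℕ) : ℤ)) = 0 := by simp
      rw [this]
      exact PE.refl _ _
    rw [hu, pow_zero, measure_univ]
  | succ j ih =>
    intro w hw
    obtain ⟨u, v, rfl, hu, hv⟩ : ∃ u v : W e, w = u ++ v ∧ u.length = m ∧ v.length = j * m := by
      refine ⟨w.take m, w.drop m, (List.take_append_drop m w).symm, ?_, ?_⟩
      · rw [List.length_take, hw]
        apply Nat.min_eq_left
        nlinarith [Nat.zero_le (j * m)]
      · rw [List.length_drop, hw, Nat.succ_mul]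
        omega
    set H : SimpleGraph (W e) := Rs (TW e) ((· ++ v) '' univ) with hH
    set T : ℕ → Set (Env (Lab (W e))) := fun i => {ω | Con H ω v (-(i : ℤ)) (u ++ v) 0} with hT
    set F : ℕ → Set (Env (Lab (W e))) := fun i => T i ∩ {ω | ∀ i' < i, ω ∉ T i'} with hF
    set Q0 : Set (Env (Lab (W e))) :=
      {ω | ∃ n : ℕ, n ≤ j * n0 ∧ Con (TW e) ω [] (-(n : ℤ)) v 0} with hQ0
    set Q : ℕ → Set (Env (Lab (W e))) := fun i => pull id (-(i : ℤ)) ⁻¹' Q0 with hQ
    have hTm : ∀ i, MeasurableSet (T i) := fun i => h3 (W e) H v (u ++ v) _ _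
    have hFm : ∀ i, MeasurableSet (F i) := by
      intro i
      refine (hTm i).inter ?_
      have e1 : {ω : Env (Lab (W e)) | ∀ i' < i, ω ∉ T i'} = ⋂ i', ⋂ (_ : i' < i), (T i')ᶜ := by
        ext ω
        simp
      rw [e1]
      exact MeasurableSet.iInter fun i' => MeasurableSet.iInter fun _ => (hTm i').compl
    have hQ0m : MeasurableSet Q0 := by
      have e1 : Q0 = ⋃ n : ℕ, ⋃ (_ : n ≤ j * n0), {ω | Con (TW e) ω [] (-(n : ℤ)) v 0} := by
        ext ω
        simp [hQ0]
      rw [e1]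
      exact MeasurableSet.iUnion fun n => MeasurableSet.iUnion fun _ => h3 (W e) (TW e) [] v _ _
    have hpull : ∀ i : ℕ, MeasurePreserving (pull (id : W e → W e) (-(i : ℤ))) (mu (W e) lam)
        (mu (W e) lam) := fun i => h1.2 (W e) (W e) lam id (-(i : ℤ)) Function.injective_id
    have hQm : ∀ i, MeasurableSet (Q i) := fun i => (hpull i).measurable hQ0m
    have hQp : ∀ i, β ^ j ≤ mu (W e) lam (Q i) := by
      intro i
      rw [hQ]
      show β ^ j ≤ mu (W e) lam (pull id (-(i : ℤ)) ⁻¹' Q0)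
      rw [(hpull i).measure_preimage hQ0m.nullMeasurableSet]
      exact ih v hv
    -- the events in the subtree
    have hTp : β ≤ mu (W e) lam (⋃ i ∈ Finset.range (n0 + 1), T i) := by
      refine (hβ u hu).trans ?_
      have hm : MeasurableSet {ω : Env (Lab (W e)) | ∃ n : ℕ, n ≤ n0 ∧
          Con (TW e) ω [] (-(n : ℤ)) u 0} := by
        have e1 : {ω : Env (Lab (W e)) | ∃ n : ℕ, n ≤ n0 ∧ Con (TW e) ω [] (-(n : ℤ)) u 0} =
            ⋃ n : ℕ, ⋃ (_ : n ≤ n0), {ω | Con (TW e) ω [] (-(n : ℤ)) u 0} := by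
          ext ω
          simp
        rw [e1]
        exact MeasurableSet.iUnion fun n => MeasurableSet.iUnion fun _ =>
          h3 (W e) (TW e) [] u _ _
      have hp := h1.2 (W e) (W e) lam (fun u => u ++ v) 0 (app_injective v)
      rw [← hp.measure_preimage hm.nullMeasurableSet]
      refine measure_mono ?_
      rintro ω ⟨n, hn, hc⟩
      refine mem_biUnion (Finset.mem_coe.2 (Finset.mem_range.2 (Nat.lt_succ_of_le hn))) ?_
      have h4 := (Con_app univ v 0 ω [] u (-(n : ℤ)) 0).1 (by rw [Rs_univ]; exact hc)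
      rw [add_zero, add_zero] at h4
      exact h4
    have hTF : (⋃ i ∈ Finset.range (n0 + 1), T i) ⊆ ⋃ i ∈ Finset.range (n0 + 1), F i := by
      intro ω hω
      obtain ⟨i, hi, hωi⟩ := mem_iUnion₂.1 hω
      classical
      have hex : ∃ i, ω ∈ T i := ⟨i, hωi⟩
      refine mem_iUnion₂.2 ⟨Nat.find hex, ?_, Nat.find_spec hex, fun i' hi' => Nat.find_min hex hi'⟩
      rw [Finset.mem_range] at hi ⊢
      exact (Nat.find_min' hex hωi).trans_lt hi
    have hFp : β ≤ ∑ i ∈ Finset.range (n0 + 1), mu (W e) lam (F i) :=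
      hTp.trans ((measure_mono hTF).trans (measure_biUnion_finset_le _ _))
    -- dependence
    have hTd : ∀ i : ℕ, ∀ ω ω' : Env (Lab (W e)),
        (∀ p ∈ {p : Lab (W e) × ℤ | -(i : ℤ) ≤ p.2}, ω p = ω' p) → (ω ∈ T i ↔ ω' ∈ T i) := by
      intro i ω ω' hω
      exact Con_congr fun p hp => hω p hp.1
    have hFd : ∀ i : ℕ, ∀ ω ω' : Env (Lab (W e)),
        (∀ p ∈ {p : Lab (W e) × ℤ | -(i : ℤ) ≤ p.2}, ω p = ω' p) → (ω ∈ F i ↔ ω' ∈ F i) := by
      intro i ω ω' hω
      have h5 : ∀ i' < i, (ω ∈ T i' ↔ ω' ∈ T i') := by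
        intro i' hi'
        refine hTd i' ω ω' fun p hp => hω p ?_
        have h6 : -(i' : ℤ) ≤ p.2 := hp
        have h7 : (i' : ℤ) < i := by exact_mod_cast hi'
        show -(i : ℤ) ≤ p.2
        omega
      constructor
      · rintro ⟨ha, hb⟩
        exact ⟨(hTd i ω ω' hω).1 ha, fun i' hi' => fun h => hb i' hi' ((h5 i' hi').2 h)⟩
      · rintro ⟨ha, hb⟩
        exact ⟨(hTd i ω ω' hω).2 ha, fun i' hi' => fun h => hb i' hi' ((h5 i' hi').1 h)⟩
    have hQiff : ∀ i : ℕ, ∀ ω : Env (Lab (W e)), ω ∈ Q i ↔ ∃ n : ℕ, n ≤ j * n0 ∧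
        Con (TW e) ω [] (-(n : ℤ) + -(i : ℤ)) v (0 + -(i : ℤ)) := by
      intro i ω
      constructor
      · rintro ⟨n, hn, hc⟩
        exact ⟨n, hn, (Con_shift (TW e) [] v (-(n : ℤ)) 0).1 hc⟩
      · rintro ⟨n, hn, hc⟩
        exact ⟨n, hn, (Con_shift (TW e) [] v (-(n : ℤ)) 0).2 hc⟩
    have hQd : ∀ i : ℕ, ∀ ω ω' : Env (Lab (W e)),
        (∀ p ∈ {p : Lab (W e) × ℤ | p.2 < -(i : ℤ)}, ω p = ω' p) → (ω ∈ Q i ↔ ω' ∈ Q i) := by
      intro i ω ω' hω
      rw [hQiff, hQiff]
      have h5 : ∀ n : ℕ, Con (TW e) ω [] (-(n : ℤ) + -(i : ℤ)) v (0 + -(i : ℤ)) ↔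
          Con (TW e) ω' [] (-(n : ℤ) + -(i : ℤ)) v (0 + -(i : ℤ)) := by
        intro n
        refine Con_congr fun p hp => hω p ?_
        have := hp.2.1
        rw [zero_add] at this
        exact this
      constructor
      · rintro ⟨n, hn, hc⟩
        exact ⟨n, hn, (h5 n).1 hc⟩
      · rintro ⟨n, hn, hc⟩
        exact ⟨n, hn, (h5 n).2 hc⟩
    have hind : ∀ i, mu (W e) lam (F i ∩ Q i) = mu (W e) lam (F i) * mu (W e) lam (Q i) := by
      intro i
      refine indep_two h2 (Lab (W e) × ℤ) (fun p => contactRate lam p.1) (F i) (Q i)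
        {p | -(i : ℤ) ≤ p.2} {p | p.2 < -(i : ℤ)} (hFm i) (hQm i) (hFd i) (hQd i) ?_
      rw [Set.disjoint_left]
      intro p hp hp'
      have h6 : -(i : ℤ) ≤ p.2 := hp
      have h7 : p.2 < -(i : ℤ) := hp'
      omega
    -- disjointness
    have hdis : (↑(Finset.range (n0 + 1)) : Set ℕ).PairwiseDisjoint fun i => F i ∩ Q i := by
      intro i _ i' _ hne
      show Disjoint (F i ∩ Q i) (F i' ∩ Q i')
      rw [Set.disjoint_left]
      rintro ω ⟨⟨ha, hb⟩, _⟩ ⟨⟨ha', hb'⟩, _⟩
      rcases lt_or_gt_of_ne hne with h | h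
      · exact hb' i h ha
      · exact hb i' h ha'
    have hsub : (⋃ i ∈ Finset.range (n0 + 1), (F i ∩ Q i)) ⊆
        {ω | ∃ n : ℕ, n ≤ (j + 1) * n0 ∧ Con (TW e) ω [] (-(n : ℤ)) (u ++ v) 0} := by
      intro ω hω
      obtain ⟨i, hi, ⟨hωT, _⟩, hωQ⟩ := mem_iUnion₂.1 hω
      obtain ⟨n, hn, hc⟩ := (hQiff i ω).1 hωQ
      rw [Finset.mem_range] at hi
      refine ⟨n + i, ?_, ?_⟩
      · rw [Nat.succ_mul]
        omega
      · have h5 : (-((n + i : ℕ) : ℤ)) = -(n : ℤ) + -(i : ℤ) := by push_cast; ring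
        rw [h5]
        rw [zero_add] at hc
        exact hc.trans (Con.mono hωT (Rs_le _ _))
    calc β ^ (j + 1) = β * β ^ j := pow_succ' β j
      _ ≤ (∑ i ∈ Finset.range (n0 + 1), mu (W e) lam (F i)) * β ^ j := by gcongr
      _ = ∑ i ∈ Finset.range (n0 + 1), mu (W e) lam (F i) * β ^ j := Finset.sum_mul _ _ _
      _ ≤ ∑ i ∈ Finset.range (n0 + 1), mu (W e) lam (F i ∩ Q i) := by
          refine Finset.sum_le_sum fun i _ => ?_
          rw [hind i]
          gcongr
          exact hQp i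
      _ = mu (W e) lam (⋃ i ∈ Finset.range (n0 + 1), (F i ∩ Q i)) :=
          (measure_biUnion_finset hdis fun i _ => (hFm i).inter (hQm i)).symm
      _ ≤ _ := measure_mono hsub

end Pool.Agent.H282.SF
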